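import Pool.Agent.W780.SN.Stm

/-!
Mean value inequality for nonnegative weak subsolutions (`S_Kernel`).
-/

set_option autoImplicit false

namespace Pool.Agent.W177.SN

open MeasureTheory Set Filter Topology Metric
open scoped ENNReal InnerProductSpace ContDiff
open Pool.Agent.W780.SN

/-- smooth decreasing cut-off -/
noncomputable def g (s : ℝ) : ℝ := Real.smoothTransition (1 - s)

lemma g_nonneg (s : ℝ) : 0 ≤ g s := Real.smoothTransition.nonneg _

lemma g_le_one (s : ℝ) : g s ≤ 1 := Real.smoothTransition.le_one _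

lemma g_zero {s : ℝ} (h : 1 ≤ s) : g s = 0 :=
  Real.smoothTransition.zero_of_nonpos (by linarith)

lemma g_pos {s : ℝ} (h : s < 1) : 0 < g s :=
  Real.smoothTransition.pos_of_pos (by linarith)

lemma g_contDiff : ContDiff ℝ ∞ g :=
  Real.smoothTransition.contDiff.comp (contDiff_const.sub contDiff_id)

lemma g_antitone : Antitone g := fun a b h =>
  Real.smoothTransition.monotone (by linarith)

lemma g_cont : Continuous g := g_contDiff.continuous

lemma g_diff : Differentiable ℝ g := g_contDiff.differentiable (by simp)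

lemma g_deriv_cont : Continuous (deriv g) := g_contDiff.continuous_deriv (by simp)

lemma g_deriv_zero {s : ℝ} (h : 1 < s) : deriv g s = 0 := by
  have : g =ᶠ[𝓝 s] fun _ => (0 : ℝ) := by
    filter_upwards [lt_mem_nhds h] with t ht using g_zero ht.le
  rw [this.deriv_eq]; simp

/-- bound for `s * g' s` -/
lemma exists_bound : ∃ M : ℝ, 0 ≤ M ∧ ∀ s : ℝ, 0 ≤ s → |s * deriv g s| ≤ M := by
  obtain ⟨M, hM⟩ := (isCompact_Icc (a := (0 : ℝ)) (b := 2)).exists_bound_of_continuousOn
    (f := fun s => s * deriv g s) ((continuous_id.mul g_deriv_cont).continuousOn)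
  refine ⟨max M 0, le_max_right _ _, fun s hs => ?_⟩
  rcases le_or_gt s 2 with h | h
  · exact (hM s ⟨hs, h⟩).trans (le_max_left _ _)
  · rw [g_deriv_zero (by linarith)]; simp

/-- primitive of `-g` vanishing at `1` -/
noncomputable def P (s : ℝ) : ℝ := ∫ t in s..1, g t

lemma P_hasDerivAt (s : ℝ) : HasDerivAt P (-g s) s :=
  intervalIntegral.integral_hasDerivAt_left (g_cont.intervalIntegrable _ _)
    (g_cont.stronglyMeasurableAtFilter _ _) g_cont.continuousAt

lemma P_contDiff : ContDiff ℝ ∞ P := by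
  rw [contDiff_infty_iff_deriv]
  refine ⟨fun s => (P_hasDerivAt s).differentiableAt, ?_⟩
  have : deriv P = fun s => -g s := funext fun s => (P_hasDerivAt s).deriv
  rw [this]
  exact g_contDiff.neg

lemma P_zero {s : ℝ} (h : 1 ≤ s) : P s = 0 := by
  unfold P
  rw [intervalIntegral.integral_congr (g := fun _ => (0 : ℝ))]
  · simp
  · intro t ht
    rw [uIcc_of_ge h] at ht
    exact g_zero ht.1

lemma P_nonneg (s : ℝ) : 0 ≤ P s := by
  rcases le_or_gt s 1 with h | h
  · exact intervalIntegral.integral_nonneg h (fun t _ => g_nonneg t)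
  · rw [P_zero h.le]

lemma P_le {s : ℝ} (hs : 0 ≤ s) : P s ≤ g s := by
  rcases le_or_gt s 1 with h | h
  · have h1 : P s ≤ ∫ _ in s..1, g s := by
      apply intervalIntegral.integral_mono_on h (g_cont.intervalIntegrable _ _)
        (by simp)
      intro t ht
      exact g_antitone ht.1
    rw [intervalIntegral.integral_const, smul_eq_mul] at h1
    nlinarith [g_nonneg s]
  · rw [P_zero h.le]; exact g_nonneg s

variable {n : ℕ}

/-- scaled squared distance -/
noncomputable def sq (x : EuclideanSpace ℝ (Fin n)) (ρ : ℝ) (y : EuclideanSpace ℝ (Fin n)) : ℝ :=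
  ‖y - x‖ ^ 2 / ρ ^ 2

lemma sq_nonneg' (x : EuclideanSpace ℝ (Fin n)) (ρ : ℝ) (y : EuclideanSpace ℝ (Fin n)) :
    0 ≤ sq x ρ y := by unfold sq; positivity

lemma sq_cont (x : EuclideanSpace ℝ (Fin n)) (ρ : ℝ) : Continuous (sq x ρ) := by
  unfold sq; fun_prop

lemma sq_contDiff (x : EuclideanSpace ℝ (Fin n)) (ρ : ℝ) : ContDiff ℝ ∞ (sq x ρ) := by
  unfold sq
  exact ((contDiff_id.sub contDiff_const).norm_sq ℝ).div_const _

lemma sq_hasFDerivAt (x y : EuclideanSpace ℝ (Fin n)) (ρ : ℝ) :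
    HasFDerivAt (sq x ρ) ((2 / ρ ^ 2) • (innerSL ℝ (y - x))) y := by
  have h := (((hasStrictFDerivAt_norm_sq (y - x)).hasFDerivAt.comp y
    ((hasFDerivAt_id y).sub_const x)).const_mul (1 / ρ ^ 2))
  have e : sq x ρ = fun z => 1 / ρ ^ 2 * ((fun z => ‖z‖ ^ 2) ∘ fun z => id z - x) z := by
    funext z; simp [sq]; ring
  rw [e]
  refine h.congr_fderiv ?_
  ext v
  simp
  ring

/-- the test function -/
noncomputable def ψ (x : EuclideanSpace ℝ (Fin n)) (ρ : ℝ) (y : EuclideanSpace ℝ (Fin n)) : ℝ :=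
  P (sq x ρ y)

lemma ψ_fderiv (x y : EuclideanSpace ℝ (Fin n)) (ρ : ℝ) (i : Fin n) :
    fderiv ℝ (ψ x ρ) y (EuclideanSpace.single i 1) = -(g (sq x ρ y)) * (2 / ρ ^ 2 * (y i - x i)) := by
  have h := (P_hasDerivAt (sq x ρ y)).comp_hasFDerivAt y (sq_hasFDerivAt x y ρ)
  have e : (P ∘ sq x ρ) = ψ x ρ := rfl
  rw [e] at h
  rw [h.fderiv]
  simp [EuclideanSpace.inner_single_right]

lemma ψ_second (x y : EuclideanSpace ℝ (Fin n)) (ρ : ℝ) (i : Fin n) :
    fderiv ℝ (fun y => fderiv ℝ (ψ x ρ) y (EuclideanSpace.single i 1)) y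
      (EuclideanSpace.single i 1) =
      -(deriv g (sq x ρ y)) * (2 / ρ ^ 2) ^ 2 * (y i - x i) ^ 2 - g (sq x ρ y) * (2 / ρ ^ 2) := by
  have e : (fun y => fderiv ℝ (ψ x ρ) y (EuclideanSpace.single i 1)) =
      fun y => -(g (sq x ρ y)) * (2 / ρ ^ 2 * (y i - x i)) := funext fun y => ψ_fderiv x y ρ i
  rw [e]
  have h1 : HasFDerivAt (fun y => -(g (sq x ρ y)))
      (-(deriv g (sq x ρ y) • ((2 / ρ ^ 2) • (innerSL ℝ (y - x))))) y :=
    ((g_diff (sq x ρ y)).hasDerivAt.comp_hasFDerivAt y (sq_hasFDerivAt x y ρ)).neg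
  have h2 : HasFDerivAt (fun y : EuclideanSpace ℝ (Fin n) => 2 / ρ ^ 2 * (y i - x i))
      ((2 / ρ ^ 2) • (EuclideanSpace.proj i : EuclideanSpace ℝ (Fin n) →L[ℝ] ℝ)) y :=
    (((EuclideanSpace.proj i : EuclideanSpace ℝ (Fin n) →L[ℝ] ℝ).hasFDerivAt).sub_const
      (x i)).const_mul (2 / ρ ^ 2)
  have h3 : fderiv ℝ (fun y : EuclideanSpace ℝ (Fin n) =>
      -(g (sq x ρ y)) * (2 / ρ ^ 2 * (y i - x i))) y = _ := (h1.mul h2).fderiv
  rw [h3]
  simp [EuclideanSpace.inner_single_right]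
  ring

lemma ψ_lap (x y : EuclideanSpace ℝ (Fin n)) (ρ : ℝ) :
    lap (ψ x ρ) y =
      -(2 / ρ ^ 2) * (n * g (sq x ρ y) + 2 * (sq x ρ y * deriv g (sq x ρ y))) := by
  unfold lap
  rw [Finset.sum_congr rfl fun i _ => ψ_second x y ρ i]
  rw [Finset.sum_sub_distrib, ← Finset.mul_sum]
  have e : ∑ i : Fin n, (y i - x i) ^ 2 = ‖y - x‖ ^ 2 := by
    rw [EuclideanSpace.real_norm_sq_eq]
    simp
  rw [e]
  simp only [Finset.sum_const, Finset.card_univ, Fintype.card_fin, nsmul_eq_mul]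
  unfold sq
  ring

lemma ψ_test (x : EuclideanSpace ℝ (Fin n)) {ρ : ℝ} (hρ : 0 < ρ) : IsTest univ (ψ x ρ) := by
  refine ⟨P_contDiff.comp (sq_contDiff x ρ), ?_, subset_univ _⟩
  refine HasCompactSupport.intro (isCompact_closedBall x ρ) fun y hy => ?_
  apply P_zero
  rw [mem_closedBall, dist_eq_norm, not_le] at hy
  unfold sq
  rw [one_le_div (by positivity)]
  exact pow_le_pow_left₀ hρ.le hy.le 2


/-- the averaged function -/
noncomputable def F (w : EuclideanSpace ℝ (Fin n) → ℝ) (x : EuclideanSpace ℝ (Fin n)) (ρ : ℝ) : ℝ :=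
  ∫ y, w y * (g (sq x ρ y) / ρ ^ n)

lemma kernel_hasDerivAt (q : ℝ) {ρ : ℝ} (hρ : 0 < ρ) (n : ℕ) :
    HasDerivAt (fun ρ : ℝ => g (q / ρ ^ 2) / ρ ^ n)
      (-(n * g (q / ρ ^ 2) + 2 * (q / ρ ^ 2 * deriv g (q / ρ ^ 2))) / ρ ^ (n + 1)) ρ := by
  have h1 : HasDerivAt (fun ρ : ℝ => q / ρ ^ 2) (-(2 * q / ρ ^ 3)) ρ := by
    have h := ((hasDerivAt_pow 2 ρ).inv (by positivity)).const_mul q
    have e : (fun ρ : ℝ => q / ρ ^ 2) = fun y => q * ((fun x : ℝ => x ^ 2)⁻¹ y) := by
      funext y; simp [div_eq_mul_inv]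
    rw [e]
    refine h.congr_deriv ?_
    field_simp
    norm_num
    ring
  have h2 : HasDerivAt (fun ρ : ℝ => (ρ ^ n)⁻¹) (-(n / ρ ^ (n + 1))) ρ := by
    have h := (hasDerivAt_pow n ρ).inv (by positivity)
    have e : (fun ρ : ℝ => (ρ ^ n)⁻¹) = (fun x : ℝ => x ^ n)⁻¹ := by
      funext y; simp
    rw [e]
    refine h.congr_deriv ?_
    rcases n with _ | n
    · simp
    · simp only [Nat.add_sub_cancel]
      field_simp
      ring
  have h3 := ((g_diff (q / ρ ^ 2)).hasDerivAt.comp ρ h1).mul h2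
  have e : (fun ρ : ℝ => g (q / ρ ^ 2) / ρ ^ n) =
      (g ∘ fun ρ : ℝ => q / ρ ^ 2) * fun ρ : ℝ => (ρ ^ n)⁻¹ := by
    funext y; simp [div_eq_mul_inv]
  rw [e]
  refine h3.congr_deriv ?_
  simp only [Function.comp]
  field_simp
  ring

lemma F_hasDerivAt (w : EuclideanSpace ℝ (Fin n) → ℝ) (hw : Integrable w)
    (x : EuclideanSpace ℝ (Fin n)) {ρ : ℝ} (hρ : 0 < ρ) :
    HasDerivAt (F w x) (ρ / (2 * ρ ^ n) * ∫ y, w y * lap (ψ x ρ) y) ρ := by
  obtain ⟨M, hM0, hM⟩ := exists_bound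
  have key := hasDerivAt_integral_of_dominated_loc_of_deriv_le (μ := volume)
    (F := fun ρ y => w y * (g (sq x ρ y) / ρ ^ n))
    (F' := fun ρ y => w y * (-(n * g (sq x ρ y) + 2 * (sq x ρ y * deriv g (sq x ρ y))) /
      ρ ^ (n + 1))) (x₀ := ρ) (s := Ioi (ρ / 2))
    (bound := fun y => ‖w y‖ * ((n + 2 * M) / (ρ / 2) ^ (n + 1)))
    (Ioi_mem_nhds (by linarith)) ?_ ?_ ?_ ?_ ?_ ?_
  · have h := key.2
    have e : (∫ y, w y * (-(n * g (sq x ρ y) + 2 * (sq x ρ y * deriv g (sq x ρ y))) /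
      ρ ^ (n + 1))) = ρ / (2 * ρ ^ n) * ∫ y, w y * lap (ψ x ρ) y := by
      rw [← integral_const_mul]
      congr 1
      funext y
      rw [ψ_lap]
      field_simp
      ring
    rw [e] at h
    exact h
  · exact Eventually.of_forall fun r => hw.aestronglyMeasurable.mul
      ((g_cont.comp (sq_cont x r)).div_const _).aestronglyMeasurable
  · refine hw.mul_bdd (c := 1 / ρ ^ n) ((g_cont.comp (sq_cont x ρ)).div_const _).aestronglyMeasurable ?_
    refine Eventually.of_forall fun y => ?_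
    rw [Real.norm_of_nonneg (div_nonneg (g_nonneg _) (by positivity))]
    exact div_le_div_of_nonneg_right (g_le_one _) (by positivity)
  · refine hw.aestronglyMeasurable.mul (Continuous.aestronglyMeasurable ?_)
    have := sq_cont x ρ
    have := g_cont
    have := g_deriv_cont
    exact ((continuous_const.mul (g_cont.comp (sq_cont x ρ))).add
      (continuous_const.mul ((sq_cont x ρ).mul (g_deriv_cont.comp (sq_cont x ρ))))).neg.div_const _
  · refine Eventually.of_forall fun y r hr => ?_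
    rw [norm_mul]
    refine mul_le_mul_of_nonneg_left ?_ (norm_nonneg _)
    have hr' : ρ / 2 < r := hr
    rw [norm_div, norm_neg]
    have hr0 : 0 < r := by linarith
    rw [Real.norm_of_nonneg (by positivity : (0 : ℝ) ≤ r ^ (n + 1))]
    refine div_le_div₀ (by positivity) ?_ (by positivity)
      (pow_le_pow_left₀ (by positivity) hr'.le _)
    refine (norm_add_le _ _).trans ?_
    have h1 : ‖(n : ℝ) * g (sq x r y)‖ ≤ n := by
      rw [Real.norm_of_nonneg (mul_nonneg (Nat.cast_nonneg _) (g_nonneg _))]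
      exact mul_le_of_le_one_right (Nat.cast_nonneg _) (g_le_one _)
    have h2 : ‖2 * (sq x r y * deriv g (sq x r y))‖ ≤ 2 * M := by
      rw [norm_mul]
      have := hM _ (sq_nonneg' x r y)
      rw [← Real.norm_eq_abs] at this
      simp only [Real.norm_ofNat]
      linarith
    linarith
  · exact hw.norm.mul_const _
  · refine Eventually.of_forall fun y r hr => ?_
    have hr' : ρ / 2 < r := hr
    exact (kernel_hasDerivAt (‖y - x‖ ^ 2) (by linarith : 0 < r) n).const_mul (w y)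

lemma F_integrable (w : EuclideanSpace ℝ (Fin n) → ℝ) (hw : Integrable w)
    (x : EuclideanSpace ℝ (Fin n)) {ρ : ℝ} (hρ : 0 < ρ) :
    Integrable fun y => w y * (g (sq x ρ y) / ρ ^ n) := by
  refine hw.mul_bdd (c := 1 / ρ ^ n) ((g_cont.comp (sq_cont x ρ)).div_const _).aestronglyMeasurable ?_
  refine Eventually.of_forall fun y => ?_
  rw [Real.norm_of_nonneg (div_nonneg (g_nonneg _) (by positivity))]
  exact div_le_div_of_nonneg_right (g_le_one _) (by positivity)

lemma deriv_lower (w : EuclideanSpace ℝ (Fin n) → ℝ) (hw : Integrable w) (hw0 : ∀ x, 0 ≤ w x)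
    {lam : ℝ} (hlam : 0 ≤ lam)
    (hsub : ∀ ψ : EuclideanSpace ℝ (Fin n) → ℝ, IsTest univ ψ → (∀ x, 0 ≤ ψ x) →
      -(∫ x, w x * lap ψ x) ≤ lam * ∫ x, w x * ψ x)
    (x : EuclideanSpace ℝ (Fin n)) {ρ : ℝ} (hρ : 0 < ρ) :
    -(lam * ρ / 2) * F w x ρ ≤ ρ / (2 * ρ ^ n) * ∫ y, w y * lap (ψ x ρ) y := by
  have h1 := hsub (ψ x ρ) (ψ_test x hρ) (fun y => P_nonneg _)
  have h2 : ∫ y, w y * ψ x ρ y ≤ ρ ^ n * F w x ρ := by
    unfold F
    rw [← integral_const_mul]
    refine integral_mono_of_nonneg (Eventually.of_forall fun y => mul_nonneg (hw0 y) (P_nonneg _))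
      ((F_integrable w hw x hρ).const_mul _) (Eventually.of_forall fun y => ?_)
    have h3 : ψ x ρ y ≤ g (sq x ρ y) := P_le (sq_nonneg' x ρ y)
    have h4 : ρ ^ n * (w y * (g (sq x ρ y) / ρ ^ n)) = w y * g (sq x ρ y) := by
      field_simp
    simp only
    rw [h4]
    exact mul_le_mul_of_nonneg_left h3 (hw0 y)
  have h5 : -(lam * (ρ ^ n * F w x ρ)) ≤ ∫ y, w y * lap (ψ x ρ) y := by
    have := mul_le_mul_of_nonneg_left h2 hlam
    linarith
  have h6 : -(lam * ρ / 2) * F w x ρ = ρ / (2 * ρ ^ n) * -(lam * (ρ ^ n * F w x ρ)) := by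
    field_simp
  rw [h6]
  exact mul_le_mul_of_nonneg_left h5 (by positivity)

lemma mono (w : EuclideanSpace ℝ (Fin n) → ℝ) (hw : Integrable w) (hw0 : ∀ x, 0 ≤ w x)
    {lam : ℝ} (hlam : 0 ≤ lam)
    (hsub : ∀ ψ : EuclideanSpace ℝ (Fin n) → ℝ, IsTest univ ψ → (∀ x, 0 ≤ ψ x) →
      -(∫ x, w x * lap ψ x) ≤ lam * ∫ x, w x * ψ x)
    (x : EuclideanSpace ℝ (Fin n)) :
    MonotoneOn (fun ρ => Real.exp (lam * ρ ^ 2 / 4) * F w x ρ) (Ioi 0) := by
  have hd : ∀ ρ : ℝ, 0 < ρ → HasDerivAt (fun ρ => Real.exp (lam * ρ ^ 2 / 4) * F w x ρ)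
      (Real.exp (lam * ρ ^ 2 / 4) * (lam * ρ / 2) * F w x ρ +
        Real.exp (lam * ρ ^ 2 / 4) * (ρ / (2 * ρ ^ n) * ∫ y, w y * lap (ψ x ρ) y)) ρ := by
    intro ρ hρ
    have h1 : HasDerivAt (fun ρ : ℝ => lam * ρ ^ 2 / 4) (lam * ρ / 2) ρ := by
      have h := ((hasDerivAt_pow 2 ρ).const_mul lam).div_const 4
      refine h.congr_deriv ?_
      norm_num
      ring
    exact h1.exp.mul (F_hasDerivAt w hw x hρ)
  refine monotoneOn_of_deriv_nonneg (convex_Ioi 0)
    (fun ρ hρ => (hd ρ hρ).continuousAt.continuousWithinAt)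
    (fun ρ hρ => ?_) (fun ρ hρ => ?_)
  · rw [interior_Ioi] at hρ
    exact (hd ρ hρ).differentiableAt.differentiableWithinAt
  · rw [interior_Ioi] at hρ
    rw [(hd ρ hρ).deriv]
    have h := deriv_lower w hw hw0 hlam hsub x (show (0 : ℝ) < ρ from hρ)
    have h7 := mul_le_mul_of_nonneg_left h (Real.exp_pos (lam * ρ ^ 2 / 4)).le
    nlinarith [h7]

/-- upper bound for `F` -/
lemma F_le (w : EuclideanSpace ℝ (Fin n) → ℝ) (hw : Integrable w) (hw0 : ∀ x, 0 ≤ w x)
    (x : EuclideanSpace ℝ (Fin n)) {ρ : ℝ} (hρ : 0 < ρ) :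
    F w x ρ ≤ 1 / ρ ^ n * ∫ y in ball x ρ, w y := by
  unfold F
  rw [← integral_indicator measurableSet_ball, ← integral_const_mul]
  refine integral_mono_of_nonneg (Eventually.of_forall fun y => ?_)
    ((hw.indicator measurableSet_ball).const_mul _) (Eventually.of_forall fun y => ?_)
  · exact mul_nonneg (hw0 y) (div_nonneg (g_nonneg _) (by positivity))
  · simp only
    by_cases hy : y ∈ ball x ρ
    · rw [indicator_of_mem hy]
      rw [div_eq_mul_inv, ← mul_assoc, mul_comm, one_div]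
      refine mul_le_mul_of_nonneg_left ?_ (by positivity)
      exact mul_le_of_le_one_right (hw0 y) (g_le_one _)
    · rw [indicator_of_notMem hy, g_zero]
      · simp
      · rw [mem_ball, dist_eq_norm, not_lt] at hy
        unfold sq
        rw [one_le_div (by positivity)]
        exact pow_le_pow_left₀ hρ.le hy 2

/-- lower bound for `F` -/
lemma F_ge (w : EuclideanSpace ℝ (Fin n) → ℝ) (hw : Integrable w) (hw0 : ∀ x, 0 ≤ w x)
    (x : EuclideanSpace ℝ (Fin n)) {ρ : ℝ} (hρ : 0 < ρ) :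
    g (1 / 4) * (1 / 2) ^ n * (volume (closedBall (0 : EuclideanSpace ℝ (Fin n)) 1)).toReal * w x ≤
      F w x ρ + (volume (closedBall (0 : EuclideanSpace ℝ (Fin n)) 1)).toReal *
        ⨍ y in closedBall x ρ, ‖w y - w x‖ := by
  set v := (volume (closedBall (0 : EuclideanSpace ℝ (Fin n)) 1)).toReal with hv
  have hvol : ∀ r : ℝ, 0 ≤ r →
      (volume (closedBall x r)).toReal = r ^ n * v := by
    intro r hr
    rw [Measure.addHaar_closedBall' _ _ hr, ENNReal.toReal_mul,
      ENNReal.toReal_ofReal (by positivity), finrank_euclideanSpace_fin]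
  have hint : Integrable (fun y => ‖w y - w x‖) (volume.restrict (closedBall x ρ)) := by
    refine (hw.restrict.sub ?_).norm
    exact integrableOn_const measure_closedBall_lt_top.ne
  have hav : v * ⨍ y in closedBall x ρ, ‖w y - w x‖ =
      1 / ρ ^ n * ∫ y in closedBall x ρ, ‖w y - w x‖ := by
    rw [setAverage_eq, Measure.real, hvol ρ hρ.le, smul_eq_mul]
    rcases eq_or_ne v 0 with h0 | h0
    · have : volume (closedBall x ρ) = 0 := by
        have h := hvol ρ hρ.le
        rw [h0, mul_zero, ENNReal.toReal_eq_zero_iff] at h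
        exact h.resolve_right measure_closedBall_lt_top.ne
      rw [Measure.restrict_eq_zero.2 this]
      simp
    · field_simp
  have hleft : g (1 / 4) * (1 / 2) ^ n * v * w x =
      ∫ y, (closedBall x (ρ / 2)).indicator (fun _ => w x * g (1 / 4) / ρ ^ n) y := by
    rw [integral_indicator measurableSet_closedBall, setIntegral_const, Measure.real,
      hvol _ (by positivity), smul_eq_mul]
    field_simp
    rw [div_pow, div_pow, one_pow]
    field_simp
  have hright : 1 / ρ ^ n * ∫ y in closedBall x ρ, ‖w y - w x‖ =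
      ∫ y, (closedBall x ρ).indicator (fun y => 1 / ρ ^ n * ‖w y - w x‖) y := by
    rw [integral_indicator measurableSet_closedBall, integral_const_mul]
  have hi1 : Integrable ((closedBall x ρ).indicator (fun y => 1 / ρ ^ n * ‖w y - w x‖)) :=
    (integrable_indicator_iff measurableSet_closedBall).2 (hint.const_mul _)
  rw [hav, hleft, hright]
  unfold F
  rw [← integral_add (F_integrable w hw x hρ) hi1]
  refine integral_mono ?_ ((F_integrable w hw x hρ).add hi1) fun y => ?_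
  · refine (integrable_indicator_iff measurableSet_closedBall).2 ?_
    exact integrableOn_const measure_closedBall_lt_top.ne
  · simp only
    have hk0 : 0 ≤ g (sq x ρ y) / ρ ^ n := div_nonneg (g_nonneg _) (by positivity)
    have hk1 : g (sq x ρ y) / ρ ^ n ≤ 1 / ρ ^ n :=
      div_le_div_of_nonneg_right (g_le_one _) (by positivity)
    by_cases hy : y ∈ closedBall x ρ
    · rw [indicator_of_mem hy]
      have h1 : (closedBall x (ρ / 2)).indicator (fun _ => w x * g (1 / 4) / ρ ^ n) y ≤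
          w x * (g (sq x ρ y) / ρ ^ n) := by
        by_cases hy2 : y ∈ closedBall x (ρ / 2)
        · rw [indicator_of_mem hy2, mul_div_assoc]
          refine mul_le_mul_of_nonneg_left (div_le_div_of_nonneg_right (g_antitone ?_)
            (by positivity)) (hw0 x)
          rw [mem_closedBall, dist_eq_norm] at hy2
          unfold sq
          rw [div_le_iff₀ (by positivity)]
          have := pow_le_pow_left₀ (norm_nonneg _) hy2 2
          calc ‖y - x‖ ^ 2 ≤ (ρ / 2) ^ 2 := this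
            _ = 1 / 4 * ρ ^ 2 := by ring
        · rw [indicator_of_notMem hy2]
          exact mul_nonneg (hw0 x) hk0
      have h2 : w x * (g (sq x ρ y) / ρ ^ n) ≤ w y * (g (sq x ρ y) / ρ ^ n) +
          ‖w y - w x‖ * (g (sq x ρ y) / ρ ^ n) := by
        rw [← add_mul]
        refine mul_le_mul_of_nonneg_right ?_ hk0
        have := neg_abs_le (w y - w x)
        rw [Real.norm_eq_abs]
        linarith
      have h3 : ‖w y - w x‖ * (g (sq x ρ y) / ρ ^ n) ≤ 1 / ρ ^ n * ‖w y - w x‖ := by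
        rw [mul_comm]
        exact mul_le_mul_of_nonneg_right hk1 (norm_nonneg _)
      linarith
    · rw [indicator_of_notMem hy, indicator_of_notMem]
      · rw [add_zero]
        exact mul_nonneg (hw0 y) hk0
      · intro h
        exact hy (closedBall_subset_closedBall (by linarith) h)

theorem kernel : S_Kernel := by
  intro n hn
  have : Nonempty (Fin n) := ⟨⟨0, hn⟩⟩
  set c := g (1 / 4) * (1 / 2) ^ n *
    (volume (closedBall (0 : EuclideanSpace ℝ (Fin n)) 1)).toReal with hc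
  have hv : 0 < (volume (closedBall (0 : EuclideanSpace ℝ (Fin n)) 1)).toReal :=
    ENNReal.toReal_pos (measure_closedBall_pos _ _ one_pos).ne' measure_closedBall_lt_top.ne
  have hc0 : 0 < c := by
    have := g_pos (s := 1 / 4) (by norm_num)
    positivity
  refine ⟨1 / c, by positivity, fun w lam r hw hw0 hlam hr hsub => ?_⟩
  have hleb := IsUnifLocDoublingMeasure.ae_tendsto_average_norm_sub
    (μ := (volume : Measure (EuclideanSpace ℝ (Fin n)))) hw.locallyIntegrable 1
  filter_upwards [hleb] with x hx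
  have hlim := hx (l := 𝓝[>] (0 : ℝ)) (fun _ => x) (fun ρ => ρ) tendsto_id (by
    filter_upwards [self_mem_nhdsWithin] with ρ hρ
    simpa using (show (0 : ℝ) < ρ from hρ).le)
  have hmono := mono w hw hw0 hlam hsub x
  have key : c * w x ≤ Real.exp (lam * r ^ 2 / 4) * F w x r := by
    have hlim2 : Tendsto (fun ρ : ℝ => Real.exp (lam * r ^ 2 / 4) * F w x r +
        (volume (closedBall (0 : EuclideanSpace ℝ (Fin n)) 1)).toReal *
          ⨍ y in closedBall x ρ, ‖w y - w x‖) (𝓝[>] (0 : ℝ))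
        (𝓝 (Real.exp (lam * r ^ 2 / 4) * F w x r +
        (volume (closedBall (0 : EuclideanSpace ℝ (Fin n)) 1)).toReal * 0)) :=
      (hlim.const_mul _).const_add _
    rw [mul_zero, add_zero] at hlim2
    refine ge_of_tendsto hlim2 ?_
    filter_upwards [Ioo_mem_nhdsGT hr] with ρ hρ
    have h1 := F_ge w hw hw0 x hρ.1
    have h2 := hmono hρ.1 hr hρ.2.le
    have h3 : F w x ρ ≤ Real.exp (lam * ρ ^ 2 / 4) * F w x ρ := by
      have : 0 ≤ F w x ρ := integral_nonneg fun y =>
        mul_nonneg (hw0 y) (div_nonneg (g_nonneg _) (pow_nonneg hρ.1.le _))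
      have h4 : 1 ≤ Real.exp (lam * ρ ^ 2 / 4) := Real.one_le_exp (by positivity)
      nlinarith
    simp only at h2
    rw [← hc] at h1
    linarith
  have hF := F_le w hw hw0 x hr
  have hI : 0 ≤ ∫ y in ball x r, w y := integral_nonneg fun y => hw0 y
  have hexp : Real.exp (lam * r ^ 2 / 4) ≤ Real.exp (lam * r ^ 2) := by
    apply Real.exp_le_exp.2
    have : 0 ≤ lam * r ^ 2 := by positivity
    linarith
  have h8 : c * w x ≤ Real.exp (lam * r ^ 2) * (1 / r ^ n * ∫ y in ball x r, w y) := by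
    refine key.trans ?_
    exact mul_le_mul hexp hF (integral_nonneg fun y =>
        mul_nonneg (hw0 y) (div_nonneg (g_nonneg _) (pow_nonneg hr.le _))) (Real.exp_pos _).le
  have h9 : w x ≤ 1 / c * (Real.exp (lam * r ^ 2) * (1 / r ^ n * ∫ y in ball x r, w y)) := by
    rw [one_div, ← div_eq_inv_mul, le_div_iff₀ hc0, mul_comm]
    exact h8
  refine h9.trans (le_of_eq ?_)
  ring

end Pool.Agent.W177.SN

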